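import Pool.Agent.P.MP_192724_nt.G.Fin

set_option autoImplicit false

namespace Pool.Agent.Results.MP_192724_nt.AllQuadratics

/-- For every integer quadratic polynomial with nonzero discriminant, each sign of the Liouville
function occurs at infinitely many of its values. -/
theorem result :
    ∀ a b c : ℤ, a ≠ 0 → b ^ 2 ≠ 4 * a * c → ∀ σ : ℤ, σ = 1 ∨ σ = -1 →
      {n : ℕ | a * (n : ℤ) ^ 2 + b * n + c ≠ 0 ∧
        (-1 : ℤ) ^ (ArithmeticFunction.cardFactors (a * (n : ℤ) ^ 2 + b * n + c).natAbs) = σ}.Infinite :=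
  fun _ _ _ ha hD _ hσ => Pool.Agent.P.MP_192724_nt.G.inf_all ha hD hσ

end Pool.Agent.Results.MP_192724_nt.AllQuadratics
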