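import Pool.Agent.P.MP_192724_nt.H3.Fin

set_option autoImplicit false

namespace Pool.Agent.Results.MP_192724_nt.BothSignsMonic

/-- For a monic integer quadratic with nonzero discriminant, each sign of the Liouville function
occurs at no fewer than `X / (log X)^185` of the arguments `1 ≤ n ≤ X`, for large `X`. -/
theorem result :
    ∀ b c : ℤ, b ^ 2 ≠ 4 * c → ∀ σ : ℤ, σ = 1 ∨ σ = -1 →
      ∃ X₀ : ℕ, ∀ X : ℕ, X₀ ≤ X →
        (X : ℝ) / Real.log X ^ 185 ≤
          (((Finset.Icc 1 X).filter fun n : ℕ => 0 < (n : ℤ) ^ 2 + b * n + c ∧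
            (-1 : ℤ) ^ (ArithmeticFunction.cardFactors ((n : ℤ) ^ 2 + b * n + c).toNat) = σ).card : ℝ) :=
  fun b c hd σ hσ =>
    Filter.eventually_atTop.1 (Pool.Agent.P.MP_192724_nt.H3.liouville_count b c hd σ hσ)

end Pool.Agent.Results.MP_192724_nt.BothSignsMonic
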