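import Pool.Agent.P.MP_192724_nt.Sp.Top

namespace Pool.Agent.Results.MP_192724_nt.SplitChowla

/-- The Liouville function has mean zero along every integer polynomial that is a polynomial with
rational roots times a square and is not a constant times a square. -/
theorem result (P S R : Polynomial ℤ) (hP : P = S * R ^ 2)
    (hS : (S.map (algebraMap ℤ ℚ)).Splits)
    (hsq : ¬ ∃ (c : ℤ) (Q : Polynomial ℤ), P = Polynomial.C c * Q ^ 2) :
    Asymptotics.IsLittleO Filter.atTop
      (fun N : ℕ => ∑ n ∈ Finset.Icc 1 N,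
        (-1 : ℝ) ^ ArithmeticFunction.cardFactors (P.eval (n : ℤ)).natAbs)
      (fun N : ℕ => (N : ℝ)) := by
  subst hP
  refine Asymptotics.isLittleO_iff.2 fun δ hδ => ?_
  filter_upwards [Pool.Agent.P.MP_192724_nt.Sp.poly Pool.Agent.P.MP_192724_nt.Sp.forms_all
    hS hsq hδ] with N hN
  rw [Real.norm_eq_abs, Real.norm_natCast]
  exact hN

end Pool.Agent.Results.MP_192724_nt.SplitChowla
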